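import Mathlib

open MeasureTheory Set

namespace Pool.Agent.Results.MP_ea8870_an.Weights

noncomputable def g (x : ℝ) : ℕ := Nat.log 4 ⌊x⌋₊

noncomputable def f (x : ℝ) : ℝ := (g x : ℝ) ^ 2

lemma gm : Monotone g := fun _ _ h => Nat.log_mono_right (Nat.floor_mono h)

lemma fm : Monotone f := fun _ _ h =>
  pow_le_pow_left₀ (Nat.cast_nonneg _) (Nat.cast_le.2 (gm h)) 2

lemma f0 (x : ℝ) : 0 ≤ f x := sq_nonneg _

lemma ex (a b : ℝ) : ∃ u : ℝ, a < b → a ≤ u ∧ u + (b - a) / 8 ≤ b ∧
    ∀ x ∈ Ioo u (u + (b - a) / 8), f x = f u := by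
  by_cases hab : a < b
  swap
  · exact ⟨0, fun h => absurd h hab⟩
  have key : ∀ u, g u = g (u + (b - a) / 8) → ∀ x ∈ Ioo u (u + (b - a) / 8), f x = f u := by
    intro u hu x hx
    have : g x = g u := le_antisymm (hu ▸ gm hx.2.le) (gm hx.1.le)
    rw [f, f, this]
  by_cases h : a + (b - a) / 8 < 1
  · refine ⟨a, fun _ => ⟨le_rfl, by linarith, key a ?_⟩⟩
    rw [g, g, Nat.floor_eq_zero.2 h, Nat.floor_eq_zero.2 (by linarith)]
  push Not at h
  have h1 : 1 ≤ ⌊b - (b - a) / 4⌋₊ := Nat.le_floor (by push_cast; linarith)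
  have h2 : ⌊b⌋₊ ≤ ⌊b - (b - a) / 4⌋₊ * 4 := by
    have e1 := Nat.lt_floor_add_one (b - (b - a) / 4)
    have e2 := Nat.floor_le (show 0 ≤ b by linarith)
    have e3 : (1 : ℝ) ≤ ⌊b - (b - a) / 4⌋₊ := by exact_mod_cast h1
    have : (⌊b⌋₊ : ℝ) ≤ ⌊b - (b - a) / 4⌋₊ * 4 := by linarith
    exact_mod_cast this
  have h3 : g b ≤ g (b - (b - a) / 4) + 1 := by
    rw [g, g, ← Nat.log_mul_base (by norm_num) (by omega)]
    exact Nat.log_mono_right h2
  have h4 : g (b - (b - a) / 4) ≤ g (b - (b - a) / 8) := gm (by linarith)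
  have h5 : g (b - (b - a) / 8) ≤ g b := gm (by linarith)
  by_cases h6 : g (b - (b - a) / 8) = g b
  · refine ⟨b - (b - a) / 8, fun _ => ⟨by linarith, by linarith, key _ ?_⟩⟩
    rw [sub_add_cancel, h6]
  · refine ⟨b - (b - a) / 4, fun _ => ⟨by linarith, by linarith, key _ ?_⟩⟩
    rw [show b - (b - a) / 4 + (b - a) / 8 = b - (b - a) / 8 by ring]
    omega

lemma piece (n : ℕ) (c : ℝ) :
    ∫ x in (n : ℝ)..(n + 1 : ℝ), |f x - c| = |(Nat.log 4 n : ℝ) ^ 2 - c| := by
  rw [intervalIntegral.integral_of_le (by linarith), integral_Ioc_eq_integral_Ioo,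
    setIntegral_congr_fun measurableSet_Ioo (g := fun _ => |(Nat.log 4 n : ℝ) ^ 2 - c|)]
  · simp
  · intro x hx
    have : ⌊x⌋₊ = n := (Nat.floor_eq_iff (le_trans (Nat.cast_nonneg n) hx.1.le)).2 ⟨hx.1.le, hx.2⟩
    simp only [f, g, this]

theorem result : ∃ (w : ℝ → ℝ → ℝ → ℝ) (F : ℝ → ℝ), Monotone F ∧
    (∀ a b, a < b → Measurable (w a b) ∧ (∀ x, 0 < w a b x ∧ w a b x ≤ 9 / (b - a)) ∧
      1 ≤ ∫ x in a..b, w a b x ∧ ∃ c, ∫ x in a..b, |F x - c| * w a b x ≤ 1) ∧
    ∀ M : ℝ, ∃ a b, a < b ∧ ∀ c, M ≤ (∫ x in a..b, |F x - c|) / (b - a) := by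
  choose u hu using ex
  refine ⟨fun a b x => (Ioo (u a b) (u a b + (b - a) / 8)).indicator (fun _ => 8 / (b - a)) x +
    1 / ((b - a) * (1 + f b)), f, fm, fun a b hab => ?_, fun M => ?_⟩
  · obtain ⟨h1, h2, h3⟩ := hu a b hab
    have hL : 0 < b - a := by linarith
    have hb := f0 b
    have hp : 0 < 1 / ((b - a) * (1 + f b)) := by positivity
    have hq : 1 / ((b - a) * (1 + f b)) ≤ 1 / (b - a) :=
      one_div_le_one_div_of_le hL (by nlinarith)
    have h9 : 9 / (b - a) = 8 / (b - a) + 1 / (b - a) := by ring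
    have h8 : 0 < 8 / (b - a) := by positivity
    refine ⟨(measurable_const.indicator measurableSet_Ioo).add measurable_const, fun x => ?_, ?_,
      f (u a b), ?_⟩
    · simp only [indicator]; split_ifs <;> constructor <;> linarith
    · rw [intervalIntegral.integral_add _ intervalIntegrable_const]
      · have e : ∫ x in a..b, (Ioo (u a b) (u a b + (b - a) / 8)).indicator
            (fun _ => 8 / (b - a)) x = 1 := by
          rw [intervalIntegral.integral_of_le hab.le, setIntegral_indicator measurableSet_Ioo,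
            inter_eq_right.2 (show Ioo (u a b) (u a b + (b - a) / 8) ⊆ Ioc a b from
              fun x hx => ⟨by linarith [hx.1], by linarith [hx.2]⟩),
            setIntegral_const, Real.volume_real_Ioo_of_le (by linarith), smul_eq_mul]
          field_simp; ring
        rw [e, intervalIntegral.integral_const, smul_eq_mul]
        have := mul_pos hL hp
        linarith
      · exact (intervalIntegrable_iff.2 ((intervalIntegrable_iff.1
          intervalIntegrable_const).indicator measurableSet_Ioo))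
    · have := intervalIntegral.norm_integral_le_of_norm_le_const (a := a) (b := b)
        (C := 1 / (b - a)) (f := fun x => |f x - f (u a b)| *
          ((Ioo (u a b) (u a b + (b - a) / 8)).indicator (fun _ => 8 / (b - a)) x +
            1 / ((b - a) * (1 + f b)))) fun x hx => by
          rw [uIoc_of_le hab.le] at hx
          by_cases hI : x ∈ Ioo (u a b) (u a b + (b - a) / 8)
          · rw [h3 x hI]; simp [hL.le]
          · rw [indicator_of_notMem hI, zero_add, Real.norm_of_nonneg (by positivity)]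
            have a1 := fm hx.2
            have a2 := fm (show u a b ≤ b by linarith)
            have a3 : |f x - f (u a b)| ≤ 1 + f b := by
              rw [abs_le]; constructor <;> linarith [f0 x, f0 (u a b)]
            refine (mul_le_mul_of_nonneg_right a3 hp.le).trans (le_of_eq ?_)
            field_simp
      rw [abs_of_pos hL, one_div_mul_cancel hL.ne'] at this
      exact (le_abs_self _).trans this
  · obtain ⟨j, hj⟩ := exists_nat_ge M
    obtain ⟨n, hn⟩ : ∃ n : ℕ, 4 ^ (j + 1) = n + 1 :=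
      ⟨4 ^ (j + 1) - 1, (Nat.sub_add_cancel (Nat.one_le_pow _ _ (by norm_num))).symm⟩
    refine ⟨n, ((n + 1 : ℕ) : ℝ) + 1, by push_cast; linarith, fun c => ?_⟩
    have hi : ∀ s t : ℝ, IntervalIntegrable (fun x => |f x - c|) volume s t := fun s t =>
      (fm.intervalIntegrable.sub intervalIntegrable_const).abs
    rw [← intervalIntegral.integral_add_adjacent_intervals (hi _ ((n + 1 : ℕ) : ℝ)) (hi _ _), piece]
    have p1 := piece n c
    rw [← Nat.cast_succ] at p1
    rw [p1, ← hn, Nat.log_pow (by norm_num)]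
    have l1 : Nat.log 4 n ≤ j := by
      rcases Nat.eq_zero_or_pos n with rfl | h0
      · simp
      · exact Nat.lt_succ_iff.1 (Nat.log_lt_of_lt_pow h0.ne' (by omega))
    have l2 : (Nat.log 4 n : ℝ) ^ 2 ≤ (j : ℝ) ^ 2 :=
      pow_le_pow_left₀ (Nat.cast_nonneg _) (Nat.cast_le.2 l1) 2
    rw [hn, le_div_iff₀ (by push_cast; linarith)]
    push_cast
    have b1 := neg_abs_le ((Nat.log 4 n : ℝ) ^ 2 - c)
    have b2 := le_abs_self (((j : ℝ) + 1) ^ 2 - c)
    nlinarith

end Pool.Agent.Results.MP_ea8870_an.Weights
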